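import Pool.Agent.Y62.GA.Wrap

/-!
# The McKay–Galois conjecture for a family of finite groups, for the prime 3
-/

namespace Pool.Agent.Results.MP_1ae3da_al.SelfCentralizingSylow

open Pool.Agent.H254R3.IN

/-- The irreducible characters of `G` of degree prime to `3`. -/
def IrrPrime (G : Type) [Group G] : Set (G → ℂ) :=
  {χ | IsIrr χ ∧ ∃ n : ℕ, (n : ℂ) = χ 1 ∧ ¬ 3 ∣ n}

/-- There is a valuation subring of `ℂ` whose maximal ideal contains `3`. -/
theorem exists_place : ∃ O : ValuationSubring ℂ, ((3 : ℕ) : ℂ) ∈ O.nonunits := by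
  let A : Subring ℂ := (Int.castRingHom ℂ).range
  have hpA : ((3 : ℕ) : ℂ) ∈ A := ⟨3, by simp⟩
  let I : Ideal A := Ideal.span {⟨((3 : ℕ) : ℂ), hpA⟩}
  have hI : I ≠ ⊤ := by
    intro h
    have h1 : (1 : A) ∈ I := by rw [h]; trivial
    obtain ⟨⟨_, n, rfl⟩, hn⟩ := Ideal.mem_span_singleton'.mp h1
    have h2 := congrArg Subtype.val hn
    have h3 : (n : ℂ) * ((3 : ℕ) : ℂ) = 1 := h2
    have h4 : n * 3 = 1 := by exact_mod_cast h3
    omega
  obtain ⟨B, -, hB⟩ := I.image_subset_nonunits_valuationSubring hI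
  exact ⟨B, hB ⟨_, Ideal.subset_span rfl, rfl⟩⟩

/-- Let `G` be a finite group of order `3 ^ b * m` with `3 ∤ m`, `N ≠ G` a normal subgroup whose
order is divisible by `3`, `P` a Sylow `3`-subgroup of `G` with `C_G(P) ≤ P`, and `y ∈ P` with
`G = N⟨y⟩`. Suppose that `9` does not divide `|C_N(x)|` for every `3`-element `x` of the coset `yN`.
Then there is a bijection `Irr_{3'}(G) → Irr_{3'}(N_G(P))` which commutes with the action of every
automorphism `σ` of `ℂ` such that `σ(ξ) = ξ ^ (3 ^ e)` for some `e ≥ 0` and all `m`-th roots of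
unity `ξ`. -/
theorem result (G : Type) [Group G] [Finite G]
    (b m : ℕ) (hm : ¬ 3 ∣ m) (hG : Nat.card G = 3 ^ b * m)
    (N : Subgroup G) (hN : N.Normal) (hNt : N ≠ ⊤) (h3 : 3 ∣ Nat.card N)
    (P : Sylow 3 G) (hC : Subgroup.centralizer ((P : Subgroup G) : Set G) ≤ P)
    (y : G) (hy : y ∈ P) (hgen : N ⊔ Subgroup.zpowers y = ⊤)
    (h9 : ∀ x : G, (∃ k : ℕ, orderOf x = 3 ^ k) → y⁻¹ * x ∈ N →
      ¬ 9 ∣ Nat.card (Subgroup.centralizer ({x} : Set G) ⊓ N : Subgroup G)) :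
    ∃ f : IrrPrime G ≃ IrrPrime (Subgroup.normalizer ((P : Subgroup G) : Set G)),
      ∀ σ : ℂ ≃+* ℂ, (∃ e : ℕ, ∀ ξ : ℂ, ξ ^ m = 1 → σ ξ = ξ ^ 3 ^ e) →
        ∀ χ : IrrPrime G, ∃ h : (fun g => σ ((χ : G → ℂ) g)) ∈ IrrPrime G,
          (f ⟨fun g => σ ((χ : G → ℂ) g), h⟩ :
            Subgroup.normalizer ((P : Subgroup G) : Set G) → ℂ) = fun g => σ ((f χ : _ → ℂ) g) := by
  have := Fintype.ofFinite G
  have hF : Fact (Nat.Prime 3) := ⟨Nat.prime_three⟩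
  obtain ⟨O, hO⟩ := exists_place
  obtain ⟨f, hf⟩ := Pool.Agent.Y62.GA.equivariant ⟨hO, hN, hNt, hgen, hy, h3, h9⟩ hm hG
  have e1 : IrrPrime G = Pool.Agent.Y62.GA.X0 O G :=
    (Pool.Agent.Y62.GA.X0_of_cent hO P hC).symm
  have e2 : IrrPrime (Subgroup.normalizer ((P : Subgroup G) : Set G)) =
      Pool.Agent.Y62.GA.X0 O (Subgroup.normalizer ((P : Subgroup G) : Set G)) :=
    (Pool.Agent.Y62.GA.X0_of_cent_normalizer hO P hC).symm
  rw [e1, e2]
  exact ⟨f, hf⟩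

end Pool.Agent.Results.MP_1ae3da_al.SelfCentralizingSylow
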