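import Pool.Agent.Y360.MC.Fin2

/-!
# The McKay–Galois conjecture and numbers of solutions of twisted surface equations

For a finite group `H`, a prime `p` and exponents `τ_1, …, τ_r` prime to `|H|` the numbers of
solutions in `H` of `∏ a_i b_i a_i^(-τ_i) b_i⁻¹ · [c_1,d_1] ⋯ [c_n,d_n] = 1`, `n = 1, 2, 3, …`,
determine integers `f d n` (the twisted slopes). For `P ∈ Syl_p(G)` the McKay–Galois conjecture
holds for `(G, p, P)` if and only if for all pairs (`p` odd) or triples (`p = 2`) of exponents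
which are congruent to powers of `p` modulo `|G|_{p'}` the last twisted slopes of `G` and `N_G(P)`
at `0` agree.
-/

namespace Pool.Agent.Results.MP_1ae3da_al.TwistedSurfaceCounts

open Pool.Agent.Y360.MC

theorem result :
    (∀ (p : ℕ) [Fact p.Prime] (r : ℕ) (τ : Fin r → ℕ) (H : Type) [Group H] [Finite H],
      (∀ i, Nat.Coprime (τ i) (Nat.card H)) →
      ∃ f : ℕ → ℕ → ℤ, IsTwSlopes p τ H f ∧ (∀ f' : ℕ → ℕ → ℤ, IsTwSlopes p τ H f' → f' = f) ∧
        (Nat.card (FixT p τ H) : ℤ) = f ((Nat.card H).factorization p) 0) ∧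
    (∀ (p : ℕ) [Fact p.Prime] (G : Type) [Group G] [Finite G] (P : Sylow p G) (r : ℕ),
      (3 ≤ r ∨ (p ≠ 2 ∧ 2 ≤ r)) →
      (McKayGalois p G P ↔ ∀ τ : Fin r → ℕ, (∀ i, InT p (Nat.card G) (τ i)) →
        ∀ f g : ℕ → ℕ → ℤ, IsTwSlopes p τ G f →
          IsTwSlopes p τ (Subgroup.normalizer (P : Set G)) g →
          f ((Nat.card G).factorization p) 0 = g ((Nat.card G).factorization p) 0)) := by
  refine ⟨?_, ?_⟩
  · intro p _ r τ H _ _ hτ
    letI : Fintype H := Fintype.ofFinite H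
    exact ⟨_, isTwSlopes_sl τ hτ, fun f' hf' => isTwSlopes_unique hf' (isTwSlopes_sl τ hτ),
      card_FixT hτ (isTwSlopes_sl τ hτ)⟩
  · intro p _ G _ _ P r hr
    exact mcKayGalois_iff2 P r hr

end Pool.Agent.Results.MP_1ae3da_al.TwistedSurfaceCounts
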